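import Pool.Agent.Y817.WK.Fin
import Pool.Agent.Y246.WK.Arith
import Pool.Agent.U133.WK.Derive
import Pool.Agent.U133.WK.Pde
import Pool.Agent.U133.WK.Tri

/-!
# Every variety of associative algebras containing `W_K` has undecidable word problem

`Pool.Agent.Y817.WK.Defs` holds the definitions: identities and relators are noncommutative
polynomials without constant term, `ContainsW K Id` says that the variety defined by `Id` contains the
variety `W_K` defined by `x[y,z][t,u]v = 0` and `x[y,z,t]u = 0`, and `ZeroIn Id R w` says that `w` is
zero in the algebra which the relators `R` present in the variety defined by `Id`.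

For every recursively enumerable set `S` of natural numbers we find one finite presentation with
integral coefficients and letters `p, x, z, q` such that, over every field of characteristic `0` and in
every variety containing `W_K`, the word `p x ^ c z q` is zero in the presented algebra exactly when
`c ∈ S`.  So the word problem of one and the same presentation is undecidable, and as hard as the
halting problem, in all these varieties at once.
-/

set_option autoImplicit false

namespace Pool.Agent.Results.MP_f5ceca_al.UndecidableAboveW

open Pool.Agent.Y817.WK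

/-- The relators with integral coefficients, read over `K`. -/
def castRel (K : Type) [Field K] {k : ℕ} (R : List (List (ℤ × Fin k × List (Fin k)))) :
    List (List (K × Fin k × List (Fin k))) :=
  R.map fun r => r.map fun t => ((t.1 : K), t.2)

theorem codes (S : ℕ → Prop) (hS : REPred S) :
    ∃ (k : ℕ) (R : List (List (ℤ × Fin k × List (Fin k)))) (p x z q : Fin k),
      ∀ (K : Type) [Field K] [CharZero K] (Id : Set (List (K × ℕ × List ℕ))), ContainsW K Id →
        ∀ c : ℕ, ZeroIn Id (castRel K R) [((1 : K), p, List.replicate c x ++ [z, q])] ↔ S c := by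
  classical
  obtain ⟨a, b, n, Q, hQ⟩ := Pool.Agent.Y246.WK.t S hS
  have hD : StmDerive := Pool.Agent.U133.WK.derive
  have hM : StmModel := model Pool.Agent.U133.WK.tri Pool.Agent.U133.WK.pde
  have := finite_gen a b
  obtain ⟨k, ⟨e⟩⟩ : ∃ k, Nonempty (Gen (Fin a) (Fin b) ≃ Fin k) := ⟨_, ⟨Finite.equivFin _⟩⟩
  refine ⟨k, (relL n Q).map (ren e), e Gen.p, e (Gen.x n), e Gen.z, e Gen.q0, ?_⟩
  intro K _ _ Id hId c
  have hev : ∀ (A : Type) [NonUnitalRing A] [Module K A] (g : Fin k → A),
      evalPoly g [((1 : K), e Gen.p, List.replicate c (e (Gen.x n)) ++ [e Gen.z, e Gen.q0])] =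
        W n (fun u => g (e u)) c := by
    intro A _ _ g
    simp only [evalPoly, List.map_cons, List.map_nil, List.sum_cons, List.sum_nil,
      one_smul, add_zero, evalWord, List.foldl_append, List.foldl_cons, List.foldl_nil, W]
    rw [← List.map_replicate, List.foldl_map]
  have hrel : ∀ (A : Type) [NonUnitalRing A] [Module K A] (g : Fin k → A),
      (∀ r ∈ castRel K ((relL n Q).map (ren e)), evalPoly g r = 0) ↔
        Rel n Q (fun u => g (e u)) := by
    intro A _ _ g
    rw [← relL_iff]
    simp only [castRel, List.mem_map, forall_exists_index, and_imp, forall_apply_eq_imp_iff₂,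
      evalPoly_cast, evalZ_ren]
  rw [hQ]
  constructor
  · intro h
    by_contra hc
    obtain ⟨A, i1, i2, i3, i4, g, hW, hR, hne⟩ := hM K (Fin a) (Fin b) n Q c hc
    have h1 := h A (hId A hW) (fun u => g (e.symm u))
      ((hrel A _).2 (by simpa using hR))
    rw [hev] at h1
    exact hne (by simpa using h1)
  · intro h A _ _ _ _ hV g hg
    rw [hev]
    exact hD _ _ n Q A _ ((hrel A g).1 hg) c h

theorem undecidable_of_codes {S : ℕ → Prop} (hS : ¬ ComputablePred S) {k : ℕ}
    {R : List (List (ℤ × Fin k × List (Fin k)))} {p x z q : Fin k}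
    (K : Type) [Field K] (Id : Set (List (K × ℕ × List ℕ)))
    (h : ∀ c : ℕ, ZeroIn Id (castRel K R) [((1 : K), p, List.replicate c x ++ [z, q])] ↔ S c)
    (ν : ℕ → K) (hν : ∃ m, ν m = 1) : ¬ DecidableWP ν Id (castRel K R) := by
  intro hdec
  obtain ⟨n1, hn1⟩ := hν
  apply hS
  let F : ℕ → List (ℕ × Fin k × List (Fin k)) := fun c =>
    [(n1, p, (List.range c).map (fun _ => x) ++ [z, q])]
  have hF : Computable F := by
    apply Primrec.to_comp
    have h1 : Primrec (fun c : ℕ => (List.range c).map (fun _ => x)) :=
      Primrec.list_map Primrec.list_range ((Primrec.const _).to₂)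
    have h2 : Primrec (fun c : ℕ => (List.range c).map (fun _ => x) ++ [z, q]) :=
      Primrec.list_append.comp h1 (Primrec.const _)
    have h3 : Primrec (fun c : ℕ => (n1, p, (List.range c).map (fun _ => x) ++ [z, q])) :=
      Primrec.pair (Primrec.const _) (Primrec.pair (Primrec.const _) h2)
    exact Primrec.list_cons.comp h3 (Primrec.const [])
  refine (cp_comp hdec hF).of_eq fun c => ?_
  rw [← h c]
  simp only [F, List.map_cons, List.map_nil, hn1, List.map_const', List.length_range]

/-- The algebra presented in any variety containing `W_K` codes any recursively enumerable set, and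
its word problem can be undecidable, for one presentation with integral coefficients. -/
theorem result :
    (∀ S : ℕ → Prop, REPred S →
      ∃ (k : ℕ) (R : List (List (ℤ × Fin k × List (Fin k)))) (p x z q : Fin k),
        ∀ (K : Type) [Field K] [CharZero K] (Id : Set (List (K × ℕ × List ℕ))), ContainsW K Id →
          ∀ c : ℕ,
            ZeroIn Id (castRel K R) [((1 : K), p, List.replicate c x ++ [z, q])] ↔ S c) ∧
    (∃ (k : ℕ) (R : List (List (ℤ × Fin k × List (Fin k)))),
      ∀ (K : Type) [Field K] [CharZero K] (ν : ℕ → K), Function.Surjective ν →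
        ∀ Id : Set (List (K × ℕ × List ℕ)), ContainsW K Id →
          ¬ DecidableWP ν Id (castRel K R)) := by
  refine ⟨codes, ?_⟩
  obtain ⟨S, hS, hS'⟩ := exists_set
  obtain ⟨k, R, p, x, z, q, h⟩ := codes S hS
  exact ⟨k, R, fun K _ _ ν hν Id hId =>
    undecidable_of_codes hS' K Id (h K Id hId) ν (hν 1)⟩

end Pool.Agent.Results.MP_f5ceca_al.UndecidableAboveW
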